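import Mathlib
import Pool.Agent.TH888.R.Base
import Pool.Agent.W66.ST

set_option autoImplicit false

/-!
# Decimal repunits and the first decimal digits: error term and sets of lengths

For real `β > 0` and a prime `p` let `W β p` be the `p`-rough part (the product, with multiplicity,
of the prime factors larger than `p`) of the largest integer below `β * 10 ^ p`, the integer formed
by the first `p` decimal digits of `β` (for `0 < β ≤ 1`, non-terminating expansion).  For
`β = 1 / 9 = 0.111...` this is the repunit `R_p` itself, for every prime `p ≠ 3`.  For a set `S` let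
`M S β n` be the number of primes `p ≤ n` in `S` with `W β p` prime, and let `V S n` be the sum of
`log p / p` over the primes `p ≤ n` in `S`.  We prove that for almost every `β > 0` the number of
primes `p ≤ n` with `W β p` prime is
`(e ^ γ / log 10) log n + O((log n) ^ (1/2) (log log n) ^ (5/2))`, that for every set `S` and almost
every `β > 0` there are infinitely many such primes `p` in `S` if and only if `V S n` is unbounded,
and that in this case `M S β n = (e ^ γ / log 10) V S n + O((V L) ^ (1/2) (log (V L)) ^ 2)` with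
`V = V S n` and `L = log log n`.
-/

namespace Pool.Agent.Results.MP_adea1b_nt.FirstDigits

open Filter Topology MeasureTheory Asymptotics

/-- The product, with multiplicity, of the prime factors of `m` that are larger than `p`. -/
def roughPart (p m : ℕ) : ℕ := (m.primeFactorsList.filter (fun r => p < r)).prod

/-- The `p`-rough part of the largest integer below `β * 10 ^ p`. -/
noncomputable def W (β : ℝ) (p : ℕ) : ℕ := roughPart p (⌈β * 10 ^ p⌉₊ - 1)

open Classical in
/-- The number of primes `p ≤ n` in the set `S` for which `W β p` is prime. -/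
noncomputable def M (S : Set ℕ) (β : ℝ) (n : ℕ) : ℕ :=
  ((Finset.range (n + 1)).filter (fun p => p.Prime ∧ p ∈ S ∧ (W β p).Prime)).card

open Classical in
/-- The sum of `log p / p` over the primes `p ≤ n` in the set `S`. -/
noncomputable def V (S : Set ℕ) (n : ℕ) : ℝ :=
  ∑ p ∈ (Finset.range (n + 1)).filter (fun p => p.Prime ∧ p ∈ S), Real.log p / p

lemma V_eq (S : Set ℕ) (n : ℕ) : V S n = Pool.Agent.TH888.R.VS S n := by
  classical
  unfold V Pool.Agent.TH888.R.VS
  rw [Finset.sum_filter]
  refine Finset.sum_congr rfl fun p _ => ?_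
  by_cases h : p.Prime ∧ p ∈ S
  · rw [if_pos h, if_pos ⟨h.2, h.1⟩]
    rfl
  · rw [if_neg h, if_neg fun h1 => h ⟨h1.2, h1.1⟩]

lemma W_special {p : ℕ} (hp : p.Prime) (h3 : p ≠ 3) : W (1 / 9) p = ∑ i ∈ Finset.range p, 10 ^ i := by
  have h := Pool.Agent.W66S.repunit_special (b := 10) (by norm_num) hp (by
    intro h
    have h2 : p ∣ 3 := by
      have : p ∣ 3 ^ 2 := by simpa using h
      exact hp.dvd_of_dvd_pow this
    exact h3 ((Nat.prime_dvd_prime_iff_eq hp Nat.prime_three).1 h2))
  have e1 : ⌈(1 / (((10 : ℕ) : ℝ) - 1)) * ((10 : ℕ) : ℝ) ^ p⌉₊ = ⌈(1 / 9 : ℝ) * 10 ^ p⌉₊ := by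
    congr 1
    push_cast
    norm_num
  rw [e1] at h
  exact h

lemma M_eq (S : Set ℕ) (β : ℝ) (n : ℕ) :
    M S β n = Pool.Agent.TH888.R.cS S (fun p => ⌈β * 10 ^ p + (fun _ : ℕ => (0 : ℝ)) p⌉₊ - 1) n := by
  classical
  unfold M Pool.Agent.TH888.R.cS
  simp only [add_zero]
  rfl

/-- The values at `β = 1 / 9` are the repunits, and for almost every `β` the law holds with a square
root error term; for every set of primes the number of prime values is finite or infinite according
to the weight of the set, and in the second case it obeys the corresponding law. -/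
theorem result :
    (∀ p : ℕ, p.Prime → p ≠ 3 → W (1 / 9) p = ∑ i ∈ Finset.range p, 10 ^ i) ∧
    (∀ᵐ β : ℝ, 0 < β →
      (fun n : ℕ => (M Set.univ β n : ℝ) -
        Real.exp Real.eulerMascheroniConstant / Real.log 10 * Real.log n) =O[atTop]
      (fun n : ℕ => Real.sqrt (Real.log n) * (Real.log (Real.log n)) ^ ((5 : ℝ) / 2))) ∧
    (∀ S : Set ℕ, Tendsto (V S) atTop atTop → ∀ᵐ β : ℝ, 0 < β →
      (fun n : ℕ => (M S β n : ℝ) -
        Real.exp Real.eulerMascheroniConstant / Real.log 10 * V S n) =O[atTop]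
      (fun n : ℕ => Real.sqrt (V S n * Real.log (Real.log n)) *
        (Real.log (V S n * Real.log (Real.log n))) ^ 2)) ∧
    (∀ S : Set ℕ, ∀ᵐ β : ℝ, 0 < β →
      ({p : ℕ | p.Prime ∧ p ∈ S ∧ (W β p).Prime}.Infinite ↔ Tendsto (V S) atTop atTop)) := by
  have hV : ∀ S, V S = Pool.Agent.TH888.R.VS S := fun S => funext fun n => V_eq S n
  have hpt : ∀ S : Set ℕ, ∀ᵐ β : ℝ, 0 < β → Pool.Agent.TH888.R.Pt
      (fun p => ⌈β * 10 ^ p + (fun _ : ℕ => (0 : ℝ)) p⌉₊ - 1)
      (Real.exp Real.eulerMascheroniConstant / Real.log 10) S := by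
    intro S
    have hg : ∀ p : ℕ, |(fun _ : ℕ => (0 : ℝ)) p| ≤ (0 : ℝ) * (1 : ℝ) ^ p := by simp
    have h := Pool.Agent.TH888.R.pt_ceil (α := ((10 : ℕ) : ℝ)) (κ := 1) (C := 0) (g := fun _ => 0)
      (by norm_num) (by norm_num) (by norm_num) hg
      (Pool.Agent.TH888.R.near_base (b := 10) (by norm_num) (by norm_num) (by norm_num) hg) S
    simp only [Nat.cast_ofNat] at h
    exact h
  have hset : ∀ (S : Set ℕ) (β : ℝ), {p : ℕ | p.Prime ∧ p ∈ S ∧ (W β p).Prime} =
      {p : ℕ | p.Prime ∧ p ∈ S ∧ (Pool.Agent.H305R2.roughPart p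
        (⌈β * 10 ^ p + (fun _ : ℕ => (0 : ℝ)) p⌉₊ - 1)).Prime} := by
    intro S β
    simp only [add_zero]
    rfl
  refine ⟨fun p hp h3 => W_special hp h3, ?_, fun S hS => ?_, fun S => ?_⟩
  · filter_upwards [hpt Set.univ] with β hβ h0
    obtain ⟨B, hB, h⟩ := (hβ h0).law Pool.Agent.TH888.R.VS_univ_tendsto
    simp only [M_eq]
    exact Pool.Agent.TH888.R.bigO_all hB h
  · rw [hV] at hS ⊢
    filter_upwards [hpt S] with β hβ h0
    obtain ⟨B, hB, h⟩ := (hβ h0).law hS
    simp only [M_eq]
    exact Pool.Agent.TH888.R.bigO_set hB hS h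
  · rw [hV]
    filter_upwards [hpt S] with β hβ h0
    rw [hset]
    constructor
    · intro hi
      by_contra hn
      exact hi ((hβ h0).fin hn)
    · exact (hβ h0).inf

end Pool.Agent.Results.MP_adea1b_nt.FirstDigits
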