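import Mathlib
import Pool.Agent.TH888.A.Low

set_option autoImplicit false

/-!
# Decimal repunits and random last digits: error term and sets of lengths

For a sequence `d` of decimal digits and a prime `p` let `W d p` be the `p`-rough part (the product,
with multiplicity, of the prime factors larger than `p`) of the integer with the `p` digits
`d_(p-1) ... d_1 d_0`.  For the sequence with all digits one this is the repunit `R_p` itself, for
every prime `p ≠ 3`.  For a set `S` let `M S d n` be the number of primes `p ≤ n` in `S` with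
`W d p` prime, and let `V S n` be the sum of `log p / p` over the primes `p ≤ n` in `S`.  The digits
are independent and uniformly distributed.  We prove that almost surely, if the last digit `d_0` is
`1`, `3`, `7` or `9`, the number of primes `p ≤ n` with `W d p` prime is
`(e ^ γ / log 10) log n + O((log n) ^ (1/2) (log log n) ^ (5/2))`, that for every set `S` almost
surely there are infinitely many such primes `p` in `S` if and only if `V S n` is unbounded, and
that in this case `M S d n = (e ^ γ / log 10) V S n + O((V L) ^ (1/2) (log (V L)) ^ 2)` with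
`V = V S n` and `L = log log n`.
-/

namespace Pool.Agent.Results.MP_adea1b_nt.LastDigits

open Filter Topology MeasureTheory Asymptotics

/-- The product, with multiplicity, of the prime factors of `m` that are larger than `p`. -/
def roughPart (p m : ℕ) : ℕ := (m.primeFactorsList.filter (fun r => p < r)).prod

/-- The `p`-rough part of the integer with the decimal digits `d (p - 1), ..., d 1, d 0`. -/
noncomputable def W (d : ℕ → Fin 10) (p : ℕ) : ℕ :=
  roughPart p (∑ i ∈ Finset.range p, (d i : ℕ) * 10 ^ i)

open Classical in
/-- The number of primes `p ≤ n` in the set `S` for which `W d p` is prime. -/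
noncomputable def M (S : Set ℕ) (d : ℕ → Fin 10) (n : ℕ) : ℕ :=
  ((Finset.range (n + 1)).filter (fun p => p.Prime ∧ p ∈ S ∧ (W d p).Prime)).card

open Classical in
/-- The sum of `log p / p` over the primes `p ≤ n` in the set `S`. -/
noncomputable def V (S : Set ℕ) (n : ℕ) : ℝ :=
  ∑ p ∈ (Finset.range (n + 1)).filter (fun p => p.Prime ∧ p ∈ S), Real.log p / p

/-- Independent and uniformly distributed decimal digits. -/
noncomputable def digits : Measure (ℕ → Fin 10) :=
  Measure.infinitePi (fun _ : ℕ => ProbabilityTheory.uniformOn (Set.univ : Set (Fin 10)))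

lemma V_eq (S : Set ℕ) (n : ℕ) : V S n = Pool.Agent.TH888.R.VS S n := by
  classical
  unfold V Pool.Agent.TH888.R.VS
  rw [Finset.sum_filter]
  refine Finset.sum_congr rfl fun p _ => ?_
  by_cases h : p.Prime ∧ p ∈ S
  · rw [if_pos h, if_pos ⟨h.2, h.1⟩]
    rfl
  · rw [if_neg h, if_neg fun h1 => h ⟨h1.2, h1.1⟩]

lemma M_eq (S : Set ℕ) (d : ℕ → Fin 10) (n : ℕ) :
    M S d n = Pool.Agent.TH888.R.cS S (fun p => Pool.Agent.W66L.dsum 10 p d) n := by
  classical
  unfold M Pool.Agent.TH888.R.cS
  rfl

/-- The values at the sequence of ones are the repunits, and almost surely the law holds with a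
square root error term; for every set of primes the number of prime values is almost surely finite
or infinite according to the weight of the set, and in the second case it obeys the corresponding
law. -/
theorem result :
    (∀ p : ℕ, p.Prime → p ≠ 3 → W (fun _ => 1) p = ∑ i ∈ Finset.range p, 10 ^ i) ∧
    (∀ᵐ d ∂digits, Nat.Coprime (d 0) 10 →
      (fun n : ℕ => (M Set.univ d n : ℝ) -
        Real.exp Real.eulerMascheroniConstant / Real.log 10 * Real.log n) =O[atTop]
      (fun n : ℕ => Real.sqrt (Real.log n) * (Real.log (Real.log n)) ^ ((5 : ℝ) / 2))) ∧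
    (∀ S : Set ℕ, Tendsto (V S) atTop atTop → ∀ᵐ d ∂digits, Nat.Coprime (d 0) 10 →
      (fun n : ℕ => (M S d n : ℝ) -
        Real.exp Real.eulerMascheroniConstant / Real.log 10 * V S n) =O[atTop]
      (fun n : ℕ => Real.sqrt (V S n * Real.log (Real.log n)) *
        (Real.log (V S n * Real.log (Real.log n))) ^ 2)) ∧
    (∀ S : Set ℕ, ∀ᵐ d ∂digits, Nat.Coprime (d 0) 10 →
      ({p : ℕ | p.Prime ∧ p ∈ S ∧ (W d p).Prime}.Infinite ↔ Tendsto (V S) atTop atTop)) := by
  have hV : ∀ S, V S = Pool.Agent.TH888.R.VS S := fun S => funext fun n => V_eq S n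
  have hpt : ∀ S : Set ℕ, ∀ᵐ d ∂digits, Nat.Coprime (d 0) 10 → Pool.Agent.TH888.R.Pt
      (fun p => Pool.Agent.W66L.dsum 10 p d)
      (Real.exp Real.eulerMascheroniConstant / Real.log 10) S := by
    intro S
    have h := Pool.Agent.TH888.A.pt_full (b := 10) (by norm_num) (Pool.Agent.W66L.full_digits 10) S
    have hd : Pool.Agent.W66L.digitMeasure 10 = digits := rfl
    rw [hd] at h
    filter_upwards [h] with d h1 h2
    have h3 : (Pool.Agent.W66L.dsum 10 1 d).Coprime 10 := by
      have : Pool.Agent.W66L.dsum 10 1 d = (d 0 : ℕ) := by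
        unfold Pool.Agent.W66L.dsum
        simp
      rw [this]
      exact h2
    have h4 := h1 h3
    simp only [Nat.cast_ofNat] at h4
    exact h4
  refine ⟨fun p hp h3 => ?_, ?_, fun S hS => ?_, fun S => ?_⟩
  · have h := Pool.Agent.W66L.rough_repunit (b := 10) (by norm_num) hp (by
      intro h
      have h2 : p ∣ 3 := by
        have : p ∣ 3 ^ 2 := by simpa using h
        exact hp.dvd_of_dvd_pow this
      exact h3 ((Nat.prime_dvd_prime_iff_eq hp Nat.prime_three).1 h2))
    have e : (∑ i ∈ Finset.range p, (((fun _ => 1 : ℕ → Fin 10) i : Fin 10) : ℕ) * 10 ^ i) =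
        ∑ i ∈ Finset.range p, 10 ^ i := by
      refine Finset.sum_congr rfl fun i _ => ?_
      simp
    unfold W
    rw [e]
    exact h
  · filter_upwards [hpt Set.univ] with d hd h0
    obtain ⟨B, hB, h⟩ := (hd h0).law Pool.Agent.TH888.R.VS_univ_tendsto
    simp only [M_eq]
    exact Pool.Agent.TH888.R.bigO_all hB h
  · rw [hV] at hS ⊢
    filter_upwards [hpt S] with d hd h0
    obtain ⟨B, hB, h⟩ := (hd h0).law hS
    simp only [M_eq]
    exact Pool.Agent.TH888.R.bigO_set hB hS h
  · rw [hV]
    filter_upwards [hpt S] with d hd h0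
    constructor
    · intro hi
      by_contra hn
      exact hi ((hd h0).fin hn)
    · exact (hd h0).inf

end Pool.Agent.Results.MP_adea1b_nt.LastDigits
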